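import Mathlib
import Pool.Agent.V11255.EE5
import Pool.Agent.Helper212.NonBorel

set_option autoImplicit false

/-!
# Invariant universality does not pass to Borel bireducible equivalence subrelations
-/

namespace Pool.Agent.Results.MP_930073_lc.BireducibleFails

open Set MeasureTheory
open Pool.Agent.V11255.EE (Str Emb exists_emb_red analyticSet_emb)

/-- `R` is Borel reducible to `R'`. -/
def BRed {X Y : Type} [MeasurableSpace X] [MeasurableSpace Y] (R : X → X → Prop)
    (R' : Y → Y → Prop) : Prop :=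
  ∃ f : X → Y, Measurable f ∧ ∀ x y, R x y ↔ R' (f x) (f y)

/-- `S` is an analytic quasi-order. -/
def AnalyticQO {X : Type} [TopologicalSpace X] (S : X → X → Prop) : Prop :=
  (∀ x, S x x) ∧ (∀ x y z, S x y → S y z → S x z) ∧ AnalyticSet {p : X × X | S p.1 p.2}

/-- `E` is an analytic equivalence relation. -/
def AnalyticER {X : Type} [TopologicalSpace X] (E : X → X → Prop) : Prop :=
  Equivalence E ∧ AnalyticSet {p : X × X | E p.1 p.2}

/-- The pair `(S, E)` is invariantly universal: every analytic quasi-order (on a Polish space) is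
Borel bireducible with the restriction of `S` to some `E`-invariant Borel set. -/
def InvUniv {X : Type} [MeasurableSpace X] (S E : X → X → Prop) : Prop :=
  ∀ (Y : Type) [TopologicalSpace Y] [PolishSpace Y] [MeasurableSpace Y] [BorelSpace Y]
    (R : Y → Y → Prop), AnalyticQO R →
    ∃ B : Set X, MeasurableSet B ∧ (∀ x ∈ B, ∀ y, E x y → y ∈ B) ∧
      BRed (fun x y : B => S x y) R ∧ BRed R (fun x y : B => S x y)

theorem AnalyticER.qo {X : Type} [TopologicalSpace X] {E : X → X → Prop} (h : AnalyticER E) :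
    AnalyticQO E :=
  ⟨h.1.refl, fun _ _ _ h1 h2 => h.1.trans h1 h2, h.2⟩

theorem analytic_union {α : Type} [TopologicalSpace α] {s t : Set α} (hs : AnalyticSet s)
    (ht : AnalyticSet t) : AnalyticSet (s ∪ t) := by
  have : s ∪ t = ⋃ b : Bool, (if b then s else t) := by
    ext x
    simp [or_comm]
  rw [this]
  exact AnalyticSet.iUnion fun b => by cases b <;> simpa

theorem analytic_inter {α : Type} [TopologicalSpace α] [T2Space α] {s t : Set α}
    (hs : AnalyticSet s) (ht : AnalyticSet t) : AnalyticSet (s ∩ t) := by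
  have : s ∩ t = ⋂ b : Bool, (if b then s else t) := by
    ext x
    simp [and_comm]
  rw [this]
  exact AnalyticSet.iInter fun b => by cases b <;> simpa

theorem analytic_lift {α β : Type} [TopologicalSpace α] [TopologicalSpace β] {P : α → α → Prop}
    {Q : β → β → Prop} (hP : AnalyticSet {p : α × α | P p.1 p.2})
    (hQ : AnalyticSet {p : β × β | Q p.1 p.2}) :
    AnalyticSet {p : (α ⊕ β) × (α ⊕ β) | Sum.LiftRel P Q p.1 p.2} := by
  have : {p : (α ⊕ β) × (α ⊕ β) | Sum.LiftRel P Q p.1 p.2} =
      (Prod.map Sum.inl Sum.inl '' {p : α × α | P p.1 p.2}) ∪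
        (Prod.map Sum.inr Sum.inr '' {p : β × β | Q p.1 p.2}) := by
    ext ⟨x, y⟩
    constructor
    · intro h
      rcases h with h | h
      · exact Or.inl ⟨(_, _), h, rfl⟩
      · exact Or.inr ⟨(_, _), h, rfl⟩
    · rintro (⟨⟨a, b⟩, h, h'⟩ | ⟨⟨a, b⟩, h, h'⟩)
      · simp only [Prod.map, Prod.mk.injEq] at h'
        obtain ⟨rfl, rfl⟩ := h'
        exact Sum.LiftRel.inl h
      · simp only [Prod.map, Prod.mk.injEq] at h'
        obtain ⟨rfl, rfl⟩ := h'
        exact Sum.LiftRel.inr h
  rw [this]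
  exact analytic_union (hP.image_of_continuous (continuous_inl.prodMap continuous_inl))
    (hQ.image_of_continuous (continuous_inr.prodMap continuous_inr))

instance : PolishSpace Str := by
  have h1 : ∀ i : ℕ, PolishSpace ((Fin ((fun _ : ℕ => 2) i) → ℕ) → Bool) := fun i => by constructor
  constructor

instance : PolishSpace (ℕ → Bool) := by constructor
instance : PolishSpace (ℕ → ℕ) := by constructor

/-- the second summand -/
abbrev Z : Type := (ℕ → ℕ) × (Str × (ℕ → Bool))

instance : PolishSpace Z := by constructor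

/-- the whole space -/
abbrev X : Type := Str ⊕ Z

instance : PolishSpace X := by constructor

section

variable (A : Set (ℕ → ℕ))

/-- the quasi-order on the second summand -/
def RA (p q : Z) : Prop := p = q ∨ (p.1 ∈ A ∧ q.1 ∈ A ∧ Emb p.2.1 q.2.1)

/-- the quasi-order -/
def S : X → X → Prop := Sum.LiftRel (fun _ _ => True) (RA A)
/-- the first equivalence relation -/
def F : X → X → Prop := Sum.LiftRel (fun u v => Emb u v ∧ Emb v u) (fun p q => p = q)
/-- the second equivalence relation -/
def E : X → X → Prop := Sum.LiftRel (fun u v => u = v) (fun p q => RA A p q ∧ RA A q p)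

variable {A}

theorem RA.trans {p q r : Z} (h : RA A p q) (h' : RA A q r) : RA A p r := by
  rcases h with rfl | ⟨h1, h2, h3⟩
  · exact h'
  · rcases h' with rfl | ⟨h4, h5, h6⟩
    · exact Or.inr ⟨h1, h2, h3⟩
    · exact Or.inr ⟨h1, h5, h3.trans h6⟩

theorem analytic_RA (hA : AnalyticSet A) : AnalyticSet {p : Z × Z | RA A p.1 p.2} := by
  have h0 : IsClosed {p : Z × Z | p.1 = p.2} := isClosed_eq continuous_fst continuous_snd
  have h1 : AnalyticSet {p : Z × Z | p.1.1 ∈ A} :=
    hA.preimage (f := fun p : Z × Z => p.1.1) (by fun_prop)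
  have h2 : AnalyticSet {p : Z × Z | p.2.1 ∈ A} :=
    hA.preimage (f := fun p : Z × Z => p.2.1) (by fun_prop)
  have h3 : AnalyticSet {p : Z × Z | Emb p.1.2.1 p.2.2.1} :=
    analyticSet_emb.preimage (f := fun p : Z × Z => (p.1.2.1, p.2.2.1)) (by fun_prop)
  exact analytic_union h0.analyticSet (analytic_inter h1 (analytic_inter h2 h3))

theorem S_qo (hA : AnalyticSet A) : AnalyticQO (S A) := by
  refine ⟨?_, ?_, ?_⟩
  · rintro (u | p)
    · exact Sum.LiftRel.inl trivial
    · exact Sum.LiftRel.inr (Or.inl rfl)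
  · rintro x y z (⟨h⟩ | ⟨h⟩) h'
    · cases h' with
      | inl h' => exact Sum.LiftRel.inl trivial
    · cases h' with
      | inr h' => exact Sum.LiftRel.inr (RA.trans h h')
  · refine analytic_lift ?_ (analytic_RA hA)
    exact (isClosed_univ (X := Str × Str)).analyticSet

theorem F_er : AnalyticER (F : X → X → Prop) := by
  refine ⟨⟨?_, ?_, ?_⟩, ?_⟩
  · rintro (u | p)
    · exact Sum.LiftRel.inl ⟨Emb.refl u, Emb.refl u⟩
    · exact Sum.LiftRel.inr rfl
  · rintro x y (⟨h⟩ | ⟨h⟩)
    · exact Sum.LiftRel.inl ⟨h.2, h.1⟩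
    · exact Sum.LiftRel.inr h.symm
  · rintro x y z (⟨h⟩ | ⟨h⟩) h'
    · cases h' with
      | inl h' => exact Sum.LiftRel.inl ⟨h.1.trans h'.1, h'.2.trans h.2⟩
    · cases h' with
      | inr h' => exact Sum.LiftRel.inr (h.trans h')
  · refine analytic_lift ?_ ?_
    · exact analytic_inter analyticSet_emb
        (analyticSet_emb.preimage (f := fun p : Str × Str => (p.2, p.1)) (by fun_prop))
    · exact (isClosed_eq (continuous_fst (X := Z) (Y := Z)) continuous_snd).analyticSet

theorem E_er (hA : AnalyticSet A) : AnalyticER (E A) := by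
  refine ⟨⟨?_, ?_, ?_⟩, ?_⟩
  · rintro (u | p)
    · exact Sum.LiftRel.inl rfl
    · exact Sum.LiftRel.inr ⟨Or.inl rfl, Or.inl rfl⟩
  · rintro x y (⟨h⟩ | ⟨h⟩)
    · exact Sum.LiftRel.inl h.symm
    · exact Sum.LiftRel.inr ⟨h.2, h.1⟩
  · rintro x y z (⟨h⟩ | ⟨h⟩) h'
    · cases h' with
      | inl h' => exact Sum.LiftRel.inl (h.trans h')
    · cases h' with
      | inr h' => exact Sum.LiftRel.inr ⟨h.1.trans h'.1, h'.2.trans h.2⟩
  · refine analytic_lift ?_ ?_
    · exact (isClosed_eq (continuous_fst (X := Str) (Y := Str)) continuous_snd).analyticSet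
    · exact analytic_inter (analytic_RA hA)
        ((analytic_RA hA).preimage (f := fun p : Z × Z => (p.2, p.1)) (by fun_prop))

end

instance : MeasurableSpace X := borel X
instance : BorelSpace X := ⟨rfl⟩

theorem E_red_F {A : Set (ℕ → ℕ)} (hA : AnalyticSet A) : BRed (E A) F := by
  obtain ⟨f, hf, h⟩ := exists_emb_red X (E A) (E_er hA).1.refl (fun _ _ _ => (E_er hA).1.trans)
    (E_er hA).2
  refine ⟨fun x => Sum.inl (f x), ?_, fun x y => ?_⟩
  · exact continuous_inl.measurable.comp hf
  · constructor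
    · intro h'
      exact Sum.LiftRel.inl ⟨(h x y).1 h', (h y x).1 ((E_er hA).1.symm h')⟩
    · intro h'
      rcases h' with h' | h'
      exact (h x y).2 h'.1

theorem F_red_E {A : Set (ℕ → ℕ)} (hA : AnalyticSet A) {a : ℕ → ℕ} (ha : a ∈ A) :
    BRed F (E A) := by
  obtain ⟨f, hf, h⟩ := exists_emb_red X F F_er.1.refl (fun _ _ _ => F_er.1.trans) F_er.2
  have hc : Continuous fun u : Str => (Sum.inr (a, (u, fun _ => true)) : X) := by fun_prop
  refine ⟨fun x => Sum.inr (a, (f x, fun _ => true)), hc.measurable.comp hf, fun x y => ?_⟩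
  constructor
  · intro h'
    exact Sum.LiftRel.inr ⟨Or.inr ⟨ha, ha, (h x y).1 h'⟩, Or.inr ⟨ha, ha, (h y x).1 (F_er.1.symm h')⟩⟩
  · intro h'
    rcases h' with h' | h'
    rcases h'.1 with h1 | h1
    · simp only [Prod.mk.injEq, true_and, and_true] at h1
      rw [h, h1]
      exact Emb.refl _
    · exact (h x y).2 h1.2.2

theorem F_univ {A : Set (ℕ → ℕ)} {a : ℕ → ℕ} (ha : a ∈ A) : InvUniv (S A) F := by
  intro Y _ _ _ _ R hR
  obtain ⟨f, hf, h⟩ := exists_emb_red Y R hR.1 hR.2.1 hR.2.2
  obtain ⟨g, hg, hgi⟩ := MeasurableSpace.measurable_injection_nat_bool_of_countablySeparated Y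
  let e : Y → X := fun y => Sum.inr (a, (f y, g y))
  have hc : Continuous fun q : Str × (ℕ → Bool) => (Sum.inr (a, (q.1, q.2)) : X) := by fun_prop
  have he : Measurable e := by
    have h1 : Measurable fun y => (f y, g y) := hf.prodMk hg
    exact hc.measurable.comp h1
  have hei : Function.Injective e := by
    intro y y' h1
    have h2 := Sum.inr_injective h1
    simp only [Prod.mk.injEq, true_and] at h2
    exact hgi h2.2
  have hem : MeasurableEmbedding e := he.measurableEmbedding hei
  have hS : ∀ y y', S A (e y) (e y') ↔ R y y' := by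
    intro y y'
    constructor
    · intro h1
      rcases h1 with h1 | h1
      rcases h1 with h1 | h1
      · have : y = y' := hei (congrArg Sum.inr h1)
        rw [this]
        exact hR.1 _
      · exact (h y y').2 h1.2.2
    · intro h1
      exact Sum.LiftRel.inr (Or.inr ⟨ha, ha, (h y y').1 h1⟩)
  refine ⟨range e, hem.measurableSet_range, ?_, ?_, ?_⟩
  · rintro _ ⟨y, rfl⟩ z h1
    rcases h1 with h1 | h1
    exact ⟨y, by rw [← h1]⟩
  · refine ⟨hem.equivRange.symm, hem.equivRange.symm.measurable, ?_⟩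
    rintro ⟨_, ⟨y, rfl⟩⟩ ⟨_, ⟨y', rfl⟩⟩
    have e1 : ∀ y, hem.equivRange.symm ⟨e y, ⟨y, rfl⟩⟩ = y :=
      fun y => hem.equivRange_symm_apply_mk y
    rw [e1, e1]
    exact hS y y'
  · refine ⟨hem.equivRange, hem.equivRange.measurable, fun y y' => ?_⟩
    show R y y' ↔ S A (hem.equivRange y : X) (hem.equivRange y' : X)
    rw [hem.equivRange_apply, hem.equivRange_apply]
    exact (hS y y').symm

theorem E_not_univ {A : Set (ℕ → ℕ)} (hA : ¬ MeasurableSet A) : ¬ InvUniv (S A) (E A) := by
  intro hU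
  obtain ⟨B, hB, hinv, ⟨φ, -, hφ⟩, ⟨ψ, -, hψ⟩⟩ := hU Bool (fun a b => a ≤ b) ⟨fun _ => le_rfl,
    fun _ _ _ => le_trans, (isClosed_discrete _).analyticSet⟩
  have hpq : S A (ψ false) (ψ true) := (hψ _ _).1 (by decide)
  have hqp : ¬ S A (ψ true) (ψ false) := fun h => by
    have := (hψ _ _).2 h
    exact absurd this (by decide)
  obtain ⟨⟨p, hpB⟩, hp⟩ : ∃ p, p = ψ false := ⟨_, rfl⟩
  obtain ⟨⟨q, hqB⟩, hq⟩ : ∃ q, q = ψ true := ⟨_, rfl⟩
  rw [← hp, ← hq] at hpq hqp
  rcases hpq with ⟨hpq⟩ | @⟨p, q, hpq⟩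
  · exact hqp (Sum.LiftRel.inl trivial)
  · rcases hpq with hpq | ⟨ha, hb, hab⟩
    · subst hpq
      exact hqp (Sum.LiftRel.inr (Or.inl rfl))
    · obtain ⟨a, u, w⟩ := p
      apply hA
      have hT : {b : ℕ → ℕ | (Sum.inr (b, (u, w)) : X) ∈ B} = A := by
        ext b
        constructor
        · intro hbB
          by_contra hbA
          have hbA' : b ∉ A := hbA
          have h1 : S A (Sum.inr (b, (u, w))) (Sum.inr (a, (u, w))) ∨
              S A (Sum.inr (a, (u, w))) (Sum.inr (b, (u, w))) :=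
            (le_total (φ ⟨Sum.inr (b, (u, w)), hbB⟩) (φ ⟨Sum.inr (a, (u, w)), hpB⟩)).imp
              (hφ ⟨Sum.inr (b, (u, w)), hbB⟩ ⟨Sum.inr (a, (u, w)), hpB⟩).2
              (hφ ⟨Sum.inr (a, (u, w)), hpB⟩ ⟨Sum.inr (b, (u, w)), hbB⟩).2
          rcases h1 with h1 | h1
          · rcases h1 with h1 | h1
            rcases h1 with h1 | h1
            · simp only [Prod.mk.injEq, and_true] at h1
              rw [h1] at hbA'
              exact hbA' ha
            · exact hbA' h1.1
          · rcases h1 with h1 | h1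
            rcases h1 with h1 | h1
            · simp only [Prod.mk.injEq, and_true] at h1
              rw [← h1] at hbA'
              exact hbA' ha
            · exact hbA' h1.2.1
        · intro hbA
          exact hinv _ hpB _ (Sum.LiftRel.inr ⟨Or.inr ⟨ha, hbA, Emb.refl u⟩,
            Or.inr ⟨hbA, ha, Emb.refl u⟩⟩)
      rw [← hT]
      have hc : Continuous fun b : ℕ → ℕ => (Sum.inr (b, (u, w)) : X) := by fun_prop
      exact hc.measurable hB

/-- **Main result.** There are an analytic quasi-order `S` on a Polish space and analytic equivalence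
relations `E, F` contained in `S` with `E` and `F` Borel bireducible such that `(S, F)` is invariantly
universal and `(S, E)` is not. -/
theorem result : ∃ (X : Type) (_ : TopologicalSpace X) (_ : PolishSpace X) (_ : MeasurableSpace X)
    (_ : BorelSpace X) (S E F : X → X → Prop), AnalyticQO S ∧ AnalyticER E ∧ AnalyticER F ∧
      (∀ x y, E x y → S x y) ∧ (∀ x y, F x y → S x y) ∧ InvUniv S F ∧
      BRed E F ∧ BRed F E ∧ ¬ InvUniv S E := by
  obtain ⟨A, hA, hAm⟩ := Pool.Agent.Helper212.Sq.exists_analytic_not_measurable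
  obtain ⟨a, ha⟩ : A.Nonempty := by
    rw [nonempty_iff_ne_empty]
    rintro rfl
    exact hAm MeasurableSet.empty
  refine ⟨X, inferInstance, inferInstance, inferInstance, inferInstance, S A, E A, F, S_qo hA,
    E_er hA, F_er, ?_, ?_, F_univ ha, E_red_F hA, F_red_E hA ha, E_not_univ hAm⟩
  · intro x y h
    rcases h with h | h
    · exact Sum.LiftRel.inl trivial
    · exact Sum.LiftRel.inr h.1
  · intro x y h
    rcases h with h | h
    · exact Sum.LiftRel.inl trivial
    · exact Sum.LiftRel.inr (Or.inl h)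

end Pool.Agent.Results.MP_930073_lc.BireducibleFails
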